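import Pool.Agent.H76.QE.Targets2
import Pool.Agent.H86.QR.EXPA

/-! # The exponent one (row EXQ) -/

set_option autoImplicit false

namespace Pool.Agent.H32.QD

open Matrix Finset Pool.Agent.H76.QE
open H43.PS
open Pool.Agent.H55.QR (PSB)
open Pool.Agent.H68.PSD (share_nonneg share_le)
open Pool.Agent.H86.QR (xx_le2 sig_le2)

/-- The conclusion for the share. -/
theorem fin_leQ {Q q a σ r e C sh : ℝ} {N h : ℕ} (hQ : 1 ≤ Q) (hq : 0 < q) (ha : 0 < a)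
    (hσ : 1 ≤ σ) (hr : 0 ≤ r) (hr2 : r ≤ ((Q * q) ^ N) ^ (1 - e)) (hsh : 0 < sh)
    (hsh1 : sh ≤ 1) (hN : (1 - e / 2) * N ≤ h + 1)
    (h0 : 32 * (64 * Q ^ 2 * (Q + 1) ^ 2) * (Q * q) ^ ((1 + a) * (1 - e) + C * a) ≤
      σ ^ (2 - e))
    (H : σ ^ (2 * (h + 1)) * sh ^ a ≤ 32 * (64 * Q ^ 2 * (Q + 1) ^ 2) ^ N * r ^ (1 + a)) :
    sh ≤ ((Q * q) ^ N) ^ (-C) := by
  rcases Nat.eq_zero_or_pos N with hN0 | hN0
  · rw [hN0, pow_zero, Real.one_rpow]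
    exact hsh1
  set K : ℝ := 64 * Q ^ 2 * (Q + 1) ^ 2 with hK
  have hK0 : 0 < K := by positivity
  have hQq : 0 < Q * q := by positivity
  have hsa : 0 < sh ^ a := Real.rpow_pos_of_pos hsh _
  have h1 : (σ ^ (2 - e)) ^ N * sh ^ a ≤ (32 * K) ^ N * r ^ (1 + a) := by
    have a1 : (σ ^ (2 - e)) ^ N = σ ^ ((2 - e) * N) := by
      rw [Real.rpow_mul (by linarith), Real.rpow_natCast]
    have a2 : σ ^ ((2 - e) * N) ≤ σ ^ ((2 * (h + 1) : ℕ) : ℝ) := by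
      refine Real.rpow_le_rpow_of_exponent_le hσ ?_
      push_cast
      linarith
    rw [Real.rpow_natCast] at a2
    rw [a1]
    refine (mul_le_mul_of_nonneg_right a2 hsa.le).trans (H.trans ?_)
    rw [mul_pow 32 K N]
    have a3 : (32 : ℝ) ≤ 32 ^ N := le_self_pow₀ (by norm_num) (by omega)
    have a4 : 0 ≤ r ^ (1 + a) := Real.rpow_nonneg hr _
    have a5 : 0 ≤ K ^ N := by positivity
    exact mul_le_mul_of_nonneg_right (mul_le_mul_of_nonneg_right a3 a5) a4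
  have h2 : (32 * K * (Q * q) ^ ((1 + a) * (1 - e) + C * a)) ^ N * sh ^ a ≤
      (32 * K) ^ N * r ^ (1 + a) :=
    (mul_le_mul_of_nonneg_right (pow_le_pow_left₀ (by positivity) h0 N) hsa.le).trans h1
  rw [mul_pow (32 * K), mul_assoc] at h2
  have h3 : ((Q * q) ^ ((1 + a) * (1 - e) + C * a)) ^ N * sh ^ a ≤ r ^ (1 + a) :=
    le_of_mul_le_mul_left h2 (by positivity)
  have h4 : r ^ (1 + a) ≤ (((Q * q) ^ N) ^ (1 - e)) ^ (1 + a) :=
    Real.rpow_le_rpow hr hr2 (by linarith)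
  have h5 : (((Q * q) ^ N) ^ (1 - e)) ^ (1 + a) =
      ((Q * q) ^ N) ^ ((1 + a) * (1 - e)) := by
    rw [← Real.rpow_mul (by positivity)]
    congr 1
    ring
  have h6 : ((Q * q) ^ ((1 + a) * (1 - e) + C * a)) ^ N =
      ((Q * q) ^ N) ^ ((1 + a) * (1 - e)) * ((Q * q) ^ N) ^ (C * a) := by
    rw [← Real.rpow_add (by positivity), ← Real.rpow_natCast (Q * q) N,
      ← Real.rpow_natCast, ← Real.rpow_mul hQq.le, ← Real.rpow_mul hQq.le]
    congr 1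
    ring
  rw [h5] at h4
  rw [h6] at h3
  have hT : 0 < ((Q * q) ^ N) ^ ((1 + a) * (1 - e)) :=
    Real.rpow_pos_of_pos (by positivity) _
  have h7 : ((Q * q) ^ N) ^ ((1 + a) * (1 - e)) * (((Q * q) ^ N) ^ (C * a) * sh ^ a) ≤
      ((Q * q) ^ N) ^ ((1 + a) * (1 - e)) * 1 := by
    rw [mul_one, ← mul_assoc]
    exact h3.trans h4
  have h8 := le_of_mul_le_mul_left h7 hT
  have hU : 0 < ((Q * q) ^ N) ^ (C * a) := Real.rpow_pos_of_pos (by positivity) _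
  have h9 : sh ^ a ≤ (((Q * q) ^ N) ^ (-C)) ^ a := by
    rw [← Real.rpow_mul (by positivity), neg_mul, Real.rpow_neg (by positivity)]
    rw [← one_div, le_div_iff₀ hU, mul_comm]
    exact h8
  exact (Real.rpow_le_rpow_iff hsh.le (by positivity) ha).1 h9

theorem pf_EXQ (hPSL : T_PSL) : T_EXQ := by
  intro Θ _ _ _ e C he he2 hC hQ1
  have hQ2 : (1 : ℝ) < (Fintype.card Θ : ℝ) := by exact_mod_cast hQ1
  set Q : ℝ := (Fintype.card Θ : ℝ) with hQd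
  obtain ⟨a, had⟩ : ∃ a : ℝ, a = e / (4 * (C + 2)) := ⟨_, rfl⟩
  have hC2 : 0 < 4 * (C + 2) := by linarith
  have ha : 0 < a := by rw [had]; positivity
  have haC : a * (4 * (C + 2)) = e := by
    rw [had]
    field_simp
  have ha1 : a < 1 / 4 := by
    by_contra hc
    push Not at hc
    have : (1 / 4 : ℝ) * (4 * (C + 2)) ≤ a * (4 * (C + 2)) :=
      mul_le_mul_of_nonneg_right hc hC2.le
    linarith
  obtain ⟨p, hpd⟩ : ∃ p : ℝ, p = 1 / (1 - a) := ⟨_, rfl⟩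
  have h1a : 0 < 1 - a := by linarith
  have hp : 1 < p := by
    rw [hpd, lt_div_iff₀ h1a]
    linarith
  have hp2 : p < 3 / 2 := by
    rw [hpd, div_lt_iff₀ h1a]
    linarith
  have hp0 : 0 < p := by linarith
  have hip : 1 / p = 1 - a := by
    rw [hpd, one_div_one_div]
  obtain ⟨γ, hγd⟩ : ∃ γ : ℝ, γ = (1 - e / 2) * (1 - a) -
    ((1 + a) * (1 - e) + C * a) := ⟨_, rfl⟩
  have hγ : 0 < γ := by
    have e1 : γ = e / 2 - a * ((1 - e / 2) + (1 - e) + C) := by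
      rw [hγd]; ring
    have e2 : a * ((1 - e / 2) + (1 - e) + C) ≤ a * (C + 2) :=
      mul_le_mul_of_nonneg_left (by linarith) ha.le
    have e3 : a * (C + 2) = e / 4 := by linarith
    linarith
  obtain ⟨Z, hZd⟩ : ∃ Z : ℝ, Z = 32 * (64 * Q ^ 2 * (Q + 1) ^ 2) *
      Q ^ ((1 + a) * (1 - e) + C * a) *
      (((p - 1) / Q) ^ ((1 - e / 2) * (1 - a)))⁻¹ := ⟨_, rfl⟩
  have hev : ∀ᶠ q : ℕ in Filter.atTop, Z ≤ (q : ℝ) ^ γ :=
    ((tendsto_rpow_atTop hγ).comp tendsto_natCast_atTop_atTop).eventually_ge_atTop Z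
  have hev2 : ∀ᶠ q : ℕ in Filter.atTop, Q / (p - 1) ≤ (q : ℝ) :=
    tendsto_natCast_atTop_atTop.eventually_ge_atTop _
  obtain ⟨q₀, hq₀⟩ := Filter.eventually_atTop.1 (hev.and hev2)
  refine ⟨q₀ + 1, fun q hq N h hN ι _ _ A P S D v m δ h1 h2 h3 h4 h5
    h6 h7 h8 h9 h10 h11 h12 h13 h14 => ?_⟩
  obtain ⟨hZ, hqQ⟩ := hq₀ q (by omega)
  have hq0 : 0 < q := by omega
  have hqr : (0 : ℝ) < q := by exact_mod_cast hq0
  have hp1 : 0 < p - 1 := by linarith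
  have hQ0 : 0 < Q := by linarith
  have hshn := share_nonneg A
  rcases eq_or_lt_of_le hshn with hs0 | hs0
  · rw [← hs0]
    exact Real.rpow_nonneg (by positivity) _
  obtain ⟨τ, hτd⟩ : ∃ τ : ℝ, τ = (p - 1) * q / Q := ⟨_, rfl⟩
  have hτ1 : 1 ≤ τ := by
    rw [hτd, le_div_iff₀ hQ0, one_mul]
    rw [div_le_iff₀ hp1] at hqQ
    linarith
  obtain ⟨σ, hσd⟩ : ∃ σ : ℝ, σ = τ ^ (1 / (2 * p)) := ⟨_, rfl⟩
  have hσ1 : 1 ≤ σ := by
    rw [hσd]
    exact Real.one_le_rpow hτ1 (by positivity)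
  have hσp : σ ^ (2 * p) = (p - 1) * q / Q := by
    rw [hσd, ← Real.rpow_mul (by linarith), one_div, inv_mul_cancel₀ (by positivity),
      Real.rpow_one, hτd]
  have H := hPSL Θ p σ hp hp2 hσ1 N q h hq0 ι A P S D v (Q ^ N) m δ h1 h2 h3 h4 h5 h6 h7 h8 h9
    h11 h14
  rw [← hQd] at H
  have hr0 : (0 : ℝ) ≤ (Fintype.card ι : ℝ) := by positivity
  have hX := xx_le2 (N := N) (h := h) hQ2.le hqr hp hp2 (by linarith) hσp hr0 h9.le hshn
  have H2 := sig_le2 hQ2.le (show 0 < σ by linarith) hr0 h9 h10 h12 hs0 hX H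
  have i1 : 1 - 1 / p = a := by rw [hip]; ring
  have i2 : 2 - 1 / p = 1 + a := by rw [hip]; ring
  rw [i1, i2] at H2
  refine fin_leQ hQ2.le hqr ha hσ1 hr0 h13 hs0 (share_le A) hN ?_ H2
  -- the choice of `q₀`
  have b0 : 1 / (2 * p) * (2 - e) = (1 - e / 2) * (1 - a) := by
    rw [← hip]
    field_simp
  have b1 : σ ^ (2 - e) = ((p - 1) / Q) ^ ((1 - e / 2) * (1 - a)) *
      (q : ℝ) ^ ((1 - e / 2) * (1 - a)) := by
    rw [hσd, ← Real.rpow_mul (by linarith), b0, ← Real.mul_rpow (by positivity) hqr.le, hτd]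
    congr 1
    ring
  have b2 : (Q * q) ^ ((1 + a) * (1 - e) + C * a) = Q ^ ((1 + a) * (1 - e) + C * a) *
      (q : ℝ) ^ ((1 + a) * (1 - e) + C * a) := Real.mul_rpow hQ0.le hqr.le
  have b3 : (q : ℝ) ^ ((1 - e / 2) * (1 - a)) = (q : ℝ) ^ γ *
      (q : ℝ) ^ ((1 + a) * (1 - e) + C * a) := by
    rw [← Real.rpow_add hqr, hγd]
    congr 1
    ring
  have b4 : 0 < ((p - 1) / Q) ^ ((1 - e / 2) * (1 - a)) :=
    Real.rpow_pos_of_pos (by positivity) _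
  have b5 : 0 < (q : ℝ) ^ ((1 + a) * (1 - e) + C * a) := Real.rpow_pos_of_pos hqr _
  rw [b1, b2, b3]
  have b6 : 32 * (64 * Q ^ 2 * (Q + 1) ^ 2) * Q ^ ((1 + a) * (1 - e) + C * a) ≤
      ((p - 1) / Q) ^ ((1 - e / 2) * (1 - a)) * (q : ℝ) ^ γ := by
    rw [hZd] at hZ
    have := mul_le_mul_of_nonneg_left hZ b4.le
    rw [mul_comm (32 * (64 * Q ^ 2 * (Q + 1) ^ 2) * Q ^ ((1 + a) * (1 - e) + C * a)),
      ← mul_assoc, mul_inv_cancel₀ b4.ne', one_mul] at this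
    exact this
  have b7 := mul_le_mul_of_nonneg_right b6 b5.le
  linarith

end Pool.Agent.H32.QD
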