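import Pool.Agent.H76.QE.Targets2

/-! # The formula of a table for general constraints (row FRQ) -/

set_option autoImplicit false

namespace Pool.Agent.H32.QD

open Finset Pool.Agent.H76.QE
open Pool.Agent.H1.LP (Clause viol Agree supp ip comb kk)
open Pool.Agent.H96.KX (prs)
open H43.PS (PosDeg Low av T_PSL)
open Pool.Agent.H55.QR (PSB)

theorem pf_FRQ : T_FRQ := by
  classical
  intro p B R b n _ T bad al dec cl hA hcl
  have hcongr : ∀ (i : Fin R) (v w : Fin B → Fin b → Bool), (∀ j ∈ T i, v j = w j) →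
      (bad i (H1.LP.val al v) ↔ bad i (H1.LP.val al w)) := by
    intro i v w h
    refine hA i _ _ fun j hj => ?_
    unfold H1.LP.val
    rw [h j hj]
  obtain ⟨G, hGd⟩ : ∃ G : Finset (Fin R × (Fin B → Fin b → Bool)), G =
    (prs (b := b) T).filter (fun q => bad q.1 (H1.LP.val al q.2)) := ⟨_, rfl⟩
  let e : Fin G.card ≃ G := G.equivFin.symm
  have hG0 : ∀ q ∈ G, q ∈ prs (b := b) T := by
    intro q hq
    rw [hGd] at hq
    exact (mem_filter.mp hq).1
  have hG : ∀ q : G, (∀ j, j ∉ T q.1.1 → q.1.2 j = fun _ => false) ∧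
      bad q.1.1 (H1.LP.val al q.1.2) := by
    rintro ⟨q, hq⟩
    rw [hGd] at hq
    have h1 := mem_filter.mp hq
    exact ⟨(mem_filter.mp h1.1).2, h1.2⟩
  refine ⟨G.card, fun a => cl (T (e a).1.1) (e a).1.2, ?_, ?_, ?_, ?_⟩
  · rw [hGd]
    exact card_filter_le _ _
  · intro a
    exact ⟨(e a).1, hG0 _ (e a).2, rfl⟩
  · intro g
    rw [← hGd]
    have h1 : ∑ a : Fin G.card, g (cl (T (e a).1.1) (e a).1.2) =
        ∑ q : G, g (cl (T q.1.1) q.1.2) :=
      Equiv.sum_comp e (fun q : G => g (cl (T q.1.1) q.1.2))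
    rw [h1]
    exact sum_coe_sort G (fun q => g (cl (T q.1) q.2))
  · intro y
    unfold viol
    refine card_bij (fun a _ => (e a).1.1) ?_ ?_ ?_
    · intro a ha
      have h1 := (mem_filter.mp ha).2
      rw [hcl, not_not] at h1
      refine mem_filter.mpr ⟨mem_univ _, ?_⟩
      rw [hcongr (e a).1.1 (dec y) (e a).1.2 h1]
      exact (hG (e a)).2
    · intro a ha a' ha' heq
      have h1 := (mem_filter.mp ha).2
      have h2 := (mem_filter.mp ha').2
      rw [hcl, not_not] at h1 h2
      apply e.injective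
      apply Subtype.ext
      refine Prod.ext heq ?_
      funext j
      by_cases hj : j ∈ T (e a).1.1
      · rw [← h1 j hj]
        exact h2 j (heq ▸ hj)
      · rw [(hG (e a)).1 j hj, (hG (e a')).1 j (fun h => hj (heq ▸ h))]
    · intro i hi
      have h1 := (mem_filter.mp hi).2
      let v : Fin B → Fin b → Bool := fun j => if j ∈ T i then dec y j else fun _ => false
      have hv : ∀ j ∈ T i, dec y j = v j := fun j hj => by simp [v, hj]
      have hmem : (i, v) ∈ G := by
        rw [hGd]
        refine mem_filter.mpr ⟨mem_filter.mpr ⟨mem_univ _, ?_⟩, ?_⟩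
        · intro j hj
          simp only at hj
          simp [v, hj]
        · simp only
          rw [← hcongr i (dec y) v hv]
          exact h1
      refine ⟨e.symm ⟨(i, v), hmem⟩, ?_, ?_⟩
      · refine mem_filter.mpr ⟨mem_univ _, ?_⟩
        rw [hcl, not_not, Equiv.apply_symm_apply]
        exact hv
      · simp only [Equiv.apply_symm_apply]

end Pool.Agent.H32.QD
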