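import Pool.Agent.H76.QE.Targets

/-! # The mean of the linear density (row MEA) -/

set_option autoImplicit false

namespace Pool.Agent.H32.QD

open Finset Pool.Agent.H76.QE
open Pool.Agent.H1.LP (supp ip comb kk S_DISP S_COL S_SMALL)
open H43.PS (PosDeg Low av)
open Pool.Agent.H73.OX (ch)

theorem pf_MEA (hX : T_CPX) : T_MEA := by
  intro p M N τ _ A c hI
  have hp0 : (p : ℂ) ^ N ≠ 0 := pow_ne_zero _ (Nat.cast_ne_zero.2 (Fact.out : p.Prime).ne_zero)
  have hz : (0 : Fin M → ZMod p) ∈ CC p M τ := by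
    simp [CC, supp]
  have hc0 : comb A 0 = 0 := by
    funext j
    simp [comb]
  have hip0 : ip (0 : Fin M → ZMod p) c = 0 := by
    simp [ip]
  apply Complex.ofReal_injective
  have h1 : ((∑ z, LD A τ c z : ℝ) : ℂ) = (p : ℂ) ^ N := by
    rw [Complex.ofReal_sum]
    simp only [hX p M N τ A c]
    rw [sum_comm]
    have h2 : ∀ C ∈ CC p M τ, ∑ z : Fin N → ZMod p,
        (ZMod.stdAddChar (ip (comb A C) z - ip C c) : ℂ) = if C = 0 then (p : ℂ) ^ N else 0 := by
      intro C hC
      have h3 : ∀ z : Fin N → ZMod p, (ZMod.stdAddChar (ip (comb A C) z - ip C c) : ℂ) =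
          ch (comb A C) z * ZMod.stdAddChar (-ip C c) := by
        intro z
        rw [sub_eq_add_neg, AddChar.map_add_eq_mul]
        rfl
      simp only [h3]
      rw [← sum_mul, H73.OX.sum_ch]
      by_cases hC0 : C = 0
      · subst hC0
        rw [if_pos hc0, if_pos rfl, hip0, neg_zero, AddChar.map_zero_eq_one, mul_one]
      · rw [if_neg hC0, if_neg, zero_mul]
        intro h4
        refine hC0 (hI C ?_ h4)
        simpa [CC] using hC
    rw [sum_congr rfl h2, sum_ite_eq' (CC p M τ) 0 (fun _ => (p : ℂ) ^ N), if_pos hz]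
  unfold av
  rw [Complex.ofReal_mul, h1]
  have hcard : ((Fintype.card (Fin N → ZMod p) : ℕ) : ℝ) = (p : ℝ) ^ N := by
    simp [ZMod.card]
  rw [hcard]
  push_cast
  exact inv_mul_cancel₀ hp0

end Pool.Agent.H32.QD
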