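import Pool.Agent.H76.QE.Targets2

/-! # The mean of the number of violated constraints (row VMN) -/

set_option autoImplicit false

namespace Pool.Agent.H32.QD

open Finset Pool.Agent.H76.QE
open H43.PS (PosDeg Low av T_PSL)

theorem pf_VMN : T_VMN := by
  classical
  intro p N R _ bad D θ V hD hV hB
  have hp0 : 0 < (p : ℝ) ^ N := pow_pos (by exact_mod_cast (Fact.out : p.Prime).pos) N
  have hcard : ((Fintype.card (Fin N → ZMod p) : ℕ) : ℝ) = (p : ℝ) ^ N := by
    simp [ZMod.card]
  have hVz : ∀ z, V z = ∑ i : Fin R, if bad i z then (1 : ℝ) else 0 := by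
    intro z
    rw [hV z (univ.filter (fun i => bad i z)) (by simp)]
    simp
  have hsum : ∑ z, D z * V z = ∑ i : Fin R, ∑ z ∈ univ.filter (fun z => bad i z), D z := by
    simp only [hVz, mul_sum, mul_ite, mul_one, mul_zero, sum_filter]
    rw [sum_comm]
  have h0 : ∀ i : Fin R, 0 ≤ ∑ z ∈ univ.filter (fun z => bad i z), D z := fun i =>
    (hB i _ (by simp)).1
  have h1 : ∀ i : Fin R, ∑ z ∈ univ.filter (fun z => bad i z), D z ≤ θ * (p : ℝ) ^ N := fun i =>
    (hB i _ (by simp)).2
  refine ⟨?_, ?_, ?_⟩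
  · unfold av
    rw [hsum, hcard]
    exact mul_nonneg (inv_nonneg.2 hp0.le) (sum_nonneg fun i _ => h0 i)
  · unfold av
    rw [hsum, hcard]
    have h2 : ∑ i : Fin R, ∑ z ∈ univ.filter (fun z => bad i z), D z ≤
        R * (θ * (p : ℝ) ^ N) := by
      refine (sum_le_sum fun i _ => h1 i).trans (le_of_eq ?_)
      simp
    rw [inv_mul_le_iff₀ hp0]
    refine h2.trans (le_of_eq ?_)
    ring
  · have h3 : ∀ c : ℝ, av (fun z => D z * (V z - c)) = av (fun z => D z * V z) - c * av D := by
      intro c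
      unfold av
      simp only [mul_sub, sum_sub_distrib, ← sum_mul]
      ring
    rw [h3, hD, mul_one, sub_self]

end Pool.Agent.H32.QD
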